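import Pool.Agent.Y110.FJ.Gwp
import Pool.Agent.Y110.FJ.Stm4

set_option autoImplicit false
set_option linter.all false

/-! # Project FJ: functors on labelled graphs -/

namespace Pool.Agent.Y447.FJ

open Pool.Agent.Y110.FJ
open Pool.Agent.Y462.SS (Closed)

section lemmas

variable {L : Type} (Φ : LGF L)

theorem mp_congr {V W : Type} (m : V → V → L) (m' : W → W → L) {j j' : V → W}
    (hj : Function.Injective j) (h : ∀ v w, m' (j v) (j w) = m v w) (hj' : Function.Injective j')
    (h' : ∀ v w, m' (j' v) (j' w) = m v w) (e : ∀ v, j v = j' v) (x : Φ.F V m) :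
    Φ.mp m m' j hj h x = Φ.mp m m' j' hj' h' x := by
  have e' : j = j' := funext e
  subst e'
  rfl

theorem mp_id' {V : Type} (m : V → V → L) {j : V → V} (hj : Function.Injective j)
    (h : ∀ v w, m (j v) (j w) = m v w) (e : ∀ v, j v = v) (x : Φ.F V m) :
    Φ.mp m m j hj h x = x := by
  have e' : j = id := funext e
  subst e'
  exact Φ.mp_id m x

/-- the automorphism induced by a permutation -/
def mpPerm {T : Type} (m : T → T → L) (τ : Equiv.Perm T) (h : ∀ v w, m (τ v) (τ w) = m v w) :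
    MulAut (Φ.F T m) :=
  { toFun := fun x => Φ.mp m m τ τ.injective h x
    invFun := fun x => Φ.mp m m τ.symm τ.symm.injective (fun v w => by
      have h1 := h (τ.symm v) (τ.symm w)
      rw [τ.apply_symm_apply, τ.apply_symm_apply] at h1
      exact h1.symm) x
    left_inv := fun x => (Φ.mp_comp m m m τ τ.symm _ _ _ _ x).trans
      (mp_id' Φ m _ _ (fun v => τ.symm_apply_apply v) x)
    right_inv := fun x => (Φ.mp_comp m m m τ.symm τ _ _ _ _ x).trans
      (mp_id' Φ m _ _ (fun v => τ.apply_symm_apply v) x)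
    map_mul' := fun x y => map_mul _ x y }

theorem mpPerm_pow {T : Type} (m : T → T → L) (τ : Equiv.Perm T)
    (h : ∀ v w, m (τ v) (τ w) = m v w) (k : ℕ) :
    ∃ hk : ∀ v w, m ((τ ^ k) v) ((τ ^ k) w) = m v w, ∀ x : Φ.F T m,
      ((mpPerm Φ m τ h) ^ k) x = Φ.mp m m (⇑(τ ^ k)) (τ ^ k).injective hk x := by
  induction k with
  | zero =>
    refine ⟨fun v w => rfl, fun x => ?_⟩
    rw [pow_zero, MulAut.one_apply]
    exact (mp_id' Φ m _ _ (fun v => rfl) x).symm
  | succ k ih =>
    obtain ⟨hk, ih⟩ := ih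
    have hk' : ∀ v w, m ((τ ^ (k + 1)) v) ((τ ^ (k + 1)) w) = m v w := by
      intro v w
      rw [pow_succ', Equiv.Perm.mul_apply, Equiv.Perm.mul_apply, h, hk]
    refine ⟨hk', fun x => ?_⟩
    rw [pow_succ', MulAut.mul_apply, ih x]
    change Φ.mp m m τ τ.injective h (Φ.mp m m (⇑(τ ^ k)) (τ ^ k).injective hk x) = _
    rw [Φ.mp_comp]
    refine mp_congr Φ m m _ _ _ _ (fun v => ?_) x
    rw [pow_succ']
    rfl

theorem mpPerm_fin {T : Type} [Finite T] (m : T → T → L) (τ : Equiv.Perm T)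
    (h : ∀ v w, m (τ v) (τ w) = m v w) : IsOfFinOrder (mpPerm Φ m τ h) := by
  haveI : Finite (Equiv.Perm T) := inferInstance
  obtain ⟨k, hk, hτk⟩ : ∃ k : ℕ, 0 < k ∧ τ ^ k = 1 :=
    ⟨orderOf τ, orderOf_pos τ, pow_orderOf_eq_one τ⟩
  obtain ⟨h1, h2⟩ := mpPerm_pow Φ m τ h k
  refine isOfFinOrder_iff_pow_eq_one.2 ⟨k, hk, ?_⟩
  apply MulEquiv.ext
  intro x
  rw [h2 x]
  refine mp_id' Φ m _ _ (fun v => ?_) x
  rw [hτk]
  rfl

/-- the map induced by the inclusion of a full subgraph -/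
def iS {V : Type} (m : V → V → L) (S : Set V) : Φ.F S (fun v w => m v w) →* Φ.F V m :=
  Φ.mp (fun v w : S => m v w) m Subtype.val Subtype.val_injective (fun _ _ => rfl)

theorem iS_inj {V : Type} (m : V → V → L) (hm : ∀ v w, m v w = m w v) (S : Set V) :
    Function.Injective (iS Φ m S) :=
  Φ.mp_inj _ _ _ _ _ hm

/-- the map induced by an embedding of a full subgraph in a full subgraph -/
theorem iS_mp {V : Type} (m : V → V → L) {S S' : Set V} (κ : S → S') (hκ : Function.Injective κ)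
    (h : ∀ v w : S, m (κ v) (κ w) = m v w) (y : Φ.F S (fun v w => m v w)) :
    iS Φ m S' (Φ.mp (fun v w : S => m v w) (fun v w : S' => m v w) κ hκ h y) =
      Φ.mp (fun v w : S => m v w) m (fun v => (κ v : V)) (Subtype.val_injective.comp hκ) h y :=
  Φ.mp_comp _ _ _ _ _ _ _ _ _ y

theorem iS_incl {V : Type} (m : V → V → L) {S S' : Set V} (hS : S ⊆ S')
    (y : Φ.F S (fun v w => m v w)) :
    iS Φ m S' (Φ.mp (fun v w : S => m v w) (fun v w : S' => m v w) (Set.inclusion hS)
      (Set.inclusion_injective hS) (fun _ _ => rfl) y) = iS Φ m S y :=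
  iS_mp Φ m _ _ _ y

theorem range_mono {V : Type} (m : V → V → L) {S S' : Set V} (hS : S ⊆ S') :
    (iS Φ m S).range ≤ (iS Φ m S').range := by
  rintro _ ⟨y, rfl⟩
  exact ⟨_, iS_incl Φ m hS y⟩

theorem exists_supp {V : Type} (m : V → V → L) (E : Set (Φ.F V m)) (hE : E.Finite) :
    ∃ S : Set V, S.Finite ∧ ∀ x ∈ E, x ∈ (iS Φ m S).range := by
  have h := fun x : Φ.F V m => Φ.fin m x
  choose S hS y hy using h
  refine ⟨⋃ x ∈ E, S x, hE.biUnion (fun x _ => hS x), fun x hx => ?_⟩
  exact range_mono Φ m (Set.subset_biUnion_of_mem hx) ⟨y x, hy x⟩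

end lemmas

theorem t_lgf (h : S_CRIT) (h' : S_EPPAL) : S_LGF := by
  classical
  intro C hC L Φ hfin V Q _ _ m hms hm α hα hQ
  set N : Subgroup (Φ.F V m ⋊[α] Q) :=
    (SemidirectProduct.rightHom : Φ.F V m ⋊[α] Q →* Q).ker with hN
  refine h C hC _ N ?_ ?_
  · exact hC.base.of_injective _ Q (QuotientGroup.kerLift _) (QuotientGroup.kerLift_injective _) hQ
  intro g E hE hEN
  have hright : ∀ x ∈ N, x.right = 1 := fun x hx => hx
  -- a finite set of vertices
  obtain ⟨S0, hS0, hS0E'⟩ := exists_supp Φ m ((fun x : Φ.F V m ⋊[α] Q => x.left) '' E)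
    (hE.image _)
  have hS0E : ∀ x ∈ E, x.left ∈ (iS Φ m S0).range := fun x hx => hS0E' _ ⟨x, hx, rfl⟩
  obtain ⟨Su, hSu, hSuu'⟩ := exists_supp Φ m {g.left} (Set.finite_singleton _)
  have hSuu : g.left ∈ (iS Φ m Su).range := hSuu' _ rfl
  set S : Set V := S0 ∪ (fun v => g.right • v) '' S0 ∪ Su with hS
  have hSfin : S.Finite := (hS0.union (hS0.image _)).union hSu
  have hS0S : S0 ⊆ S := fun v hv => Or.inl (Or.inl hv)
  have hSuS : Su ⊆ S := fun v hv => Or.inr hv
  have hgS : ∀ v ∈ S0, g.right • v ∈ S := fun v hv => Or.inl (Or.inr ⟨v, hv, rfl⟩)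
  haveI : Finite S := hSfin
  obtain ⟨T, hT, c', ι, τ, hι, hc's, hιc, hτ, hτι⟩ := h' L S inferInstance
    (fun v w => m v w) {x | (x : V) ∈ S0} (fun x => ⟨g.right • (x.1 : V), hgS _ x.2⟩)
    (fun x y => hms _ _)
    (by
      intro x y hxy
      have h1 : g.right • ((x.1 : S) : V) = g.right • ((y.1 : S) : V) := congrArg Subtype.val hxy
      exact Subtype.ext (Subtype.ext ((MulAction.injective g.right) h1)))
    (by
      intro x y
      exact hm g.right _ _)
  haveI := hT
  -- the automorphism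
  set σ : MulAut (Φ.F T c') := mpPerm Φ c' τ hτ with hσ
  haveI : Finite (Subgroup.zpowers σ) := (mpPerm_fin Φ c' τ hτ).finite_zpowers
  let P : Type := Φ.F T c' ⋊[(Subgroup.zpowers σ).subtype] (Subgroup.zpowers σ)
  let inlP : Φ.F T c' →* P := SemidirectProduct.inl
  let inrP : Subgroup.zpowers σ →* P := SemidirectProduct.inr
  let jm : Φ.F S (fun v w => m v w) →* Φ.F T c' := Φ.mp (fun v w : S => m v w) c' ι hι hιc
  have hjm : Function.Injective jm := Φ.mp_inj _ _ _ _ _ hc's
  let eS : Φ.F S (fun v w => m v w) ≃* (iS Φ m S).range :=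
    MonoidHom.ofInjective (iS_inj Φ m hms S)
  let f0 : (iS Φ m S).range →* P := (inlP.comp jm).comp eS.symm.toMonoidHom
  have hf0 : ∀ (y : Φ.F S (fun v w => m v w)) (x : (iS Φ m S).range), (x : Φ.F V m) = iS Φ m S y →
      f0 x = inlP (jm y) := by
    intro y x hxy
    have e1 : x = eS y := Subtype.ext hxy
    change inlP (jm (eS.symm x)) = _
    rw [e1, MulEquiv.symm_apply_apply]
  have hf0inj : Function.Injective f0 := by
    intro x y hxy
    have h1 : eS.symm x = eS.symm y := hjm (SemidirectProduct.inl_injective hxy)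
    exact eS.symm.injective h1
  let s : Subgroup.zpowers σ := ⟨σ, Subgroup.mem_zpowers σ⟩
  -- the translation by `g.right`
  have hmapS0 : ∀ x ∈ (iS Φ m S0).range, α g.right x ∈ (iS Φ m S).range := by
    rintro _ ⟨y, rfl⟩
    have hκ : Function.Injective (fun v : S0 => (⟨g.right • (v : V), hgS v v.2⟩ : S)) :=
      fun v w hvw => Subtype.ext ((MulAction.injective g.right) (congrArg Subtype.val hvw))
    refine ⟨Φ.mp (fun v w : S0 => m v w) (fun v w : S => m v w)
      (fun v => ⟨g.right • (v : V), hgS v v.2⟩) hκ (fun v w => hm _ _ _) y, ?_⟩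
    refine (iS_mp Φ m _ hκ (fun v w => hm _ _ _) y).trans ?_
    rw [hα]
    exact (Φ.mp_comp (fun v w : S0 => m v w) m m Subtype.val (fun v => g.right • v)
      Subtype.val_injective (MulAction.injective g.right) (fun _ _ => rfl) (hm g.right) y).symm
  have hconj : ∀ (x : Φ.F V m) (hx : x ∈ (iS Φ m S0).range) (x1 x2 : (iS Φ m S).range),
      (x1 : Φ.F V m) = x → (x2 : Φ.F V m) = α g.right x → f0 x2 = inrP s * f0 x1 * (inrP s)⁻¹ := by
    rintro _ ⟨y, rfl⟩ x1 x2 hx1 hx2
    have e1 : f0 x1 = inlP (jm (Φ.mp (fun v w : S0 => m v w) (fun v w : S => m v w)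
        (Set.inclusion hS0S) (Set.inclusion_injective hS0S) (fun _ _ => rfl) y)) := by
      apply hf0
      exact hx1.trans (iS_incl Φ m hS0S y).symm
    have hκ : Function.Injective (fun v : S0 => (⟨g.right • (v : V), hgS v v.2⟩ : S)) :=
      fun v w hvw => Subtype.ext ((MulAction.injective g.right) (congrArg Subtype.val hvw))
    have e2 : f0 x2 = inlP (jm (Φ.mp (fun v w : S0 => m v w) (fun v w : S => m v w)
        (fun v => ⟨g.right • (v : V), hgS v v.2⟩) hκ (fun v w => hm _ _ _) y)) := by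
      apply hf0
      refine Eq.trans ?_ (iS_mp Φ m _ hκ (fun v w => hm _ _ _) y).symm
      rw [hx2, hα]
      exact Φ.mp_comp (fun v w : S0 => m v w) m m Subtype.val (fun v => g.right • v)
        Subtype.val_injective (MulAction.injective g.right) (fun _ _ => rfl) (hm g.right) y
    have e3 : jm (Φ.mp (fun v w : S0 => m v w) (fun v w : S => m v w)
        (fun v => ⟨g.right • (v : V), hgS v v.2⟩) hκ (fun v w => hm _ _ _) y) =
        σ (jm (Φ.mp (fun v w : S0 => m v w) (fun v w : S => m v w)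
        (Set.inclusion hS0S) (Set.inclusion_injective hS0S) (fun _ _ => rfl) y)) := by
      change Φ.mp (fun v w : S => m v w) c' ι hι hιc _ =
        Φ.mp c' c' τ τ.injective hτ (Φ.mp (fun v w : S => m v w) c' ι hι hιc _)
      rw [Φ.mp_comp, Φ.mp_comp, Φ.mp_comp]
      refine mp_congr Φ _ _ _ _ _ _ (fun v => ?_) y
      exact (hτι ⟨⟨v, hS0S v.2⟩, v.2⟩).symm
    rw [e1, e2, e3]
    have e4 := SemidirectProduct.inl_aut (φ := (Subgroup.zpowers σ).subtype) s
      (jm (Φ.mp (fun v w : S0 => m v w) (fun v w : S => m v w)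
        (Set.inclusion hS0S) (Set.inclusion_injective hS0S) (fun _ _ => rfl) y))
    rw [map_inv] at e4
    exact e4
  set K : Subgroup (Φ.F V m ⋊[α] Q) :=
    Subgroup.closure (E ∪ (fun x => g * x * g⁻¹) '' E) with hK
  have hgconj : ∀ x : Φ.F V m ⋊[α] Q, x.right = 1 →
      (g * x * g⁻¹).left = g.left * α g.right x.left * g.left⁻¹ ∧ (g * x * g⁻¹).right = 1 := by
    intro x hx
    have hx1 : x = SemidirectProduct.inl x.left := SemidirectProduct.ext rfl hx
    constructor
    · rw [SemidirectProduct.mul_left, SemidirectProduct.mul_left, SemidirectProduct.mul_right, hx,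
        mul_one, SemidirectProduct.inv_left, map_inv α, MulAut.apply_inv_self]
    · rw [SemidirectProduct.mul_right, SemidirectProduct.mul_right, hx, mul_one,
        SemidirectProduct.inv_right, mul_inv_cancel]
  have hSu' : g.left ∈ (iS Φ m S).range := range_mono Φ m hSuS hSuu
  -- the subgroup of elements with left part in the range and trivial right part
  let W : Subgroup (Φ.F V m ⋊[α] Q) := ((iS Φ m S).range).map SemidirectProduct.inl
  have hKW : K ≤ W := by
    rw [hK, Subgroup.closure_le]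
    rintro x (hx | ⟨x, hx, rfl⟩)
    · have h1 : x.left ∈ (iS Φ m S0).range := hS0E x hx
      have h5 : (SemidirectProduct.inl x.left : Φ.F V m ⋊[α] Q) = x :=
        SemidirectProduct.ext (by rw [SemidirectProduct.left_inl])
          (by rw [SemidirectProduct.right_inl]; exact (hright x (hEN hx)).symm)
      exact ⟨x.left, range_mono Φ m hS0S h1, h5⟩
    · have h1 : x.left ∈ (iS Φ m S0).range := hS0E x hx
      obtain ⟨h3, h4⟩ := hgconj x (hright x (hEN hx))
      refine ⟨g.left * α g.right x.left * g.left⁻¹, ?_, ?_⟩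
      · exact Subgroup.mul_mem _ (Subgroup.mul_mem _ hSu' (hmapS0 _ h1)) (Subgroup.inv_mem _ hSu')
      · exact SemidirectProduct.ext (by rw [SemidirectProduct.left_inl]; exact h3.symm)
          (by rw [SemidirectProduct.right_inl]; exact h4.symm)
  have hKr : ∀ x ∈ K, x.right = 1 := by
    intro x hx
    obtain ⟨y, -, rfl⟩ := hKW hx
    rfl
  have hKl : ∀ x ∈ K, x.left ∈ (iS Φ m S).range := by
    intro x hx
    obtain ⟨y, hy, rfl⟩ := hKW hx
    exact hy
  refine ⟨P, inferInstance,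
    { toFun := fun x => f0 ⟨x.1.left, hKl x x.2⟩
      map_one' := by
        have e1 : (⟨(1 : K).1.left, hKl _ (1 : K).2⟩ : (iS Φ m S).range) = 1 := by
          apply Subtype.ext
          show (1 : Φ.F V m ⋊[α] Q).left = 1
          rw [SemidirectProduct.one_left]
        rw [e1, map_one]
      map_mul' := ?_ }, f0 ⟨g.left, hSu'⟩ * inrP s, ?_, ?_, ?_⟩
  · intro x y
    rw [← map_mul]
    congr 1
    apply Subtype.ext
    show ((x : Φ.F V m ⋊[α] Q) * y).left = (x : Φ.F V m ⋊[α] Q).left * (y : Φ.F V m ⋊[α] Q).left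
    rw [SemidirectProduct.mul_left, hKr x x.2, map_one, MulAut.one_apply]
  · exact c_semi_finite hC.base _ _ _ (hfin T hT c' hc's)
  · intro x y hxy
    have h1 : (x : Φ.F V m ⋊[α] Q).left = (y : Φ.F V m ⋊[α] Q).left :=
      congrArg Subtype.val (hf0inj hxy)
    exact Subtype.ext (SemidirectProduct.ext h1 ((hKr x x.2).trans (hKr y y.2).symm))
  · intro x y hx hy
    have h1 : (x : Φ.F V m ⋊[α] Q).left ∈ (iS Φ m S0).range := hS0E x hx
    show f0 ⟨(y : Φ.F V m ⋊[α] Q).left, hKl y y.2⟩ = f0 ⟨g.left, hSu'⟩ * inrP s *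
      f0 ⟨(x : Φ.F V m ⋊[α] Q).left, hKl x x.2⟩ * (f0 ⟨g.left, hSu'⟩ * inrP s)⁻¹
    have e0 : (⟨(y : Φ.F V m ⋊[α] Q).left, hKl y y.2⟩ : (iS Φ m S).range) =
        ⟨g.left, hSu'⟩ * ⟨α g.right (x : Φ.F V m ⋊[α] Q).left, hmapS0 _ h1⟩ *
          (⟨g.left, hSu'⟩)⁻¹ := by
      apply Subtype.ext
      show (y : Φ.F V m ⋊[α] Q).left = g.left * α g.right (x : Φ.F V m ⋊[α] Q).left * g.left⁻¹
      rw [hy, (hgconj x (hKr x x.2)).1]
    rw [e0, map_mul, map_mul, map_inv, hconj _ h1 ⟨(x : Φ.F V m ⋊[α] Q).left, hKl x x.2⟩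
      ⟨α g.right (x : Φ.F V m ⋊[α] Q).left, hmapS0 _ h1⟩ rfl rfl]
    exact aux3 _ _ _

end Pool.Agent.Y447.FJ
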